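import Mathlib

set_option autoImplicit false

namespace Pool.Agent.Helper479Half

open Finset

/-- The functions meeting every constraint of `C`. -/
noncomputable def good {E ι : Type} [Fintype E] [DecidableEq E]
    (S : ι → Finset E) (p : E → Bool × Bool) (C : Finset ι) : Finset (E → Bool × Bool) := by
  classical
  exact Finset.univ.filter (fun M => ∀ l ∈ C, ∃ e ∈ S l, M e ≠ p e)

theorem mem_good {E ι : Type} [Fintype E] [DecidableEq E]
    (S : ι → Finset E) (p : E → Bool × Bool) (C : Finset ι) (M : E → Bool × Bool) :
    M ∈ good S p C ↔ ∀ l ∈ C, ∃ e ∈ S l, M e ≠ p e := by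
  classical
  simp [good]

theorem count {E ι : Type} [Fintype E] [DecidableEq E] [DecidableEq ι]
    (S : ι → Finset E) (p : E → Bool × Bool) (C : Finset ι)
    (hS : ∀ l ∈ C, (S l).card ≤ 4)
    (hd : ∀ l ∈ C, ∀ l' ∈ C, l ≠ l' → Disjoint (S l) (S l')) :
    256 ^ C.card * (good S p C).card ≤ 255 ^ C.card * 4 ^ Fintype.card E := by
  classical
  induction C using Finset.induction_on with
  | empty =>
    have h1 : (good S p ∅).card ≤ (Finset.univ : Finset (E → Bool × Bool)).card :=
      Finset.card_le_card (Finset.subset_univ _)
    have h2 : (Finset.univ : Finset (E → Bool × Bool)).card = 4 ^ Fintype.card E := by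
      simp [Finset.card_univ]
    simp only [Finset.card_empty, pow_zero, one_mul]
    omega
  | insert a C ha ih =>
    have ih' := ih (fun l hl => hS l (Finset.mem_insert_of_mem hl))
      (fun l hl l' hl' hne => hd l (Finset.mem_insert_of_mem hl) l' (Finset.mem_insert_of_mem hl') hne)
    set X := good S p C with hX
    set Y := X.filter (fun M => ∀ e ∈ S a, M e = p e) with hY
    have hXY : good S p (insert a C) = X \ Y := by
      ext M
      rw [mem_good, Finset.mem_sdiff, hY, Finset.mem_filter, hX, mem_good]
      constructor
      · intro h
        refine ⟨fun l hl => h l (Finset.mem_insert_of_mem hl), ?_⟩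
        rintro ⟨-, h2⟩
        obtain ⟨e, he, hne⟩ := h a (Finset.mem_insert_self _ _)
        exact hne (h2 e he)
      · rintro ⟨h1, h2⟩ l hl
        rcases Finset.mem_insert.mp hl with rfl | hl
        · by_contra hcon
          push Not at hcon
          exact h2 ⟨h1, hcon⟩
        · exact h1 l hl
    have hYX : Y ⊆ X := Finset.filter_subset _ _
    have hcard : X.card ≤ 256 * Y.card := by
      refine Finset.card_le_mul_card_image_of_maps_to
        (f := fun M => fun e => if e ∈ S a then p e else M e) ?_ 256 ?_
      · intro M hM
        rw [hY, Finset.mem_filter]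
        refine ⟨?_, ?_⟩
        · rw [hX, mem_good] at hM ⊢
          intro l hl
          obtain ⟨e, he, hne⟩ := hM l hl
          refine ⟨e, he, ?_⟩
          have hla : l ≠ a := fun h => ha (h ▸ hl)
          have hdis := hd l (Finset.mem_insert_of_mem hl) a (Finset.mem_insert_self _ _) hla
          have : e ∉ S a := fun h => (Finset.disjoint_left.mp hdis he h)
          simpa [this] using hne
        · intro e he
          simp [he]
      · intro M' _
        have hinj : (X.filter (fun M => (fun e => if e ∈ S a then p e else M e) = M')).card
            ≤ (Finset.univ : Finset ((S a) → Bool × Bool)).card := by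
          refine Finset.card_le_card_of_injOn (fun M => fun e : (S a) => M e.1)
            (fun _ _ => Finset.mem_univ _) ?_
          intro M1 h1 M2 h2 h12
          simp only [Finset.coe_filter, Set.mem_setOf_eq] at h1 h2
          funext e
          by_cases he : e ∈ S a
          · exact congrFun h12 ⟨e, he⟩
          · have e1 := congrFun h1.2 e
            have e2 := congrFun h2.2 e
            simp only [he, if_false] at e1 e2
            rw [e1, e2]
        have h4 : (Finset.univ : Finset ((S a) → Bool × Bool)).card = 4 ^ (S a).card := by
          simp [Finset.card_univ]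
        have h5 : 4 ^ (S a).card ≤ 4 ^ 4 :=
          Nat.pow_le_pow_right (by norm_num) (hS a (Finset.mem_insert_self _ _))
        calc _ ≤ _ := hinj
          _ = 4 ^ (S a).card := h4
          _ ≤ 4 ^ 4 := h5
          _ = 256 := by norm_num
    have hsub : (X \ Y).card = X.card - Y.card := Finset.card_sdiff_of_subset hYX
    have hle : Y.card ≤ X.card := Finset.card_le_card hYX
    have hkey : 256 * (good S p (insert a C)).card ≤ 255 * X.card := by
      rw [hXY, hsub]
      omega
    rw [Finset.card_insert_of_notMem ha, pow_succ, pow_succ]
    calc 256 ^ C.card * 256 * (good S p (insert a C)).card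
        = 256 ^ C.card * (256 * (good S p (insert a C)).card) := by ring
      _ ≤ 256 ^ C.card * (255 * X.card) := Nat.mul_le_mul_left _ hkey
      _ = 255 * (256 ^ C.card * X.card) := by ring
      _ ≤ 255 * (255 ^ C.card * 4 ^ Fintype.card E) := Nat.mul_le_mul_left _ ih'
      _ = 255 ^ C.card * 255 * 4 ^ Fintype.card E := by ring

end Pool.Agent.Helper479Half
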