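import Mathlib
import Pool.Agent.Helper479_half.Count

set_option autoImplicit false

namespace Pool.Agent.Helper479Half

open Finset

/-- The graph on `Fin k × Bool` in which, for `i < j`, exactly one of the four edges between the
classes `i` and `j` is missing, the one given by `M (i, j)`. -/
def gr (k : ℕ) (M : Fin k × Fin k → Bool × Bool) : SimpleGraph (Fin k × Bool) where
  Adj u v := (u.1 < v.1 ∧ M (u.1, v.1) ≠ (u.2, v.2)) ∨ (v.1 < u.1 ∧ M (v.1, u.1) ≠ (v.2, u.2))
  symm := ⟨fun u v h => by
    rcases h with h | h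
    · exact Or.inr h
    · exact Or.inl h⟩
  loopless := ⟨fun u h => by
    rcases h with h | h
    · exact lt_irrefl _ h.1
    · exact lt_irrefl _ h.1⟩

theorem gr_proper (k : ℕ) (M : Fin k × Fin k → Bool × Bool) (u v : Fin k × Bool)
    (h : (gr k M).Adj u v) : u.1 ≠ v.1 := by
  rcases h with h | h
  · exact ne_of_lt h.1
  · exact ne_of_gt h.1

/-- Between two classes at most one edge is missing. -/
theorem gr_missing (k : ℕ) (M : Fin k × Fin k → Bool × Bool) (i j : Fin k) (hij : i ≠ j)
    (x y x' y' : Bool) (h : ¬ (gr k M).Adj (i, x) (j, y)) (h' : ¬ (gr k M).Adj (i, x') (j, y')) :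
    x = x' ∧ y = y' := by
  simp only [gr, not_or, not_and, not_not] at h h'
  rcases lt_or_gt_of_ne hij with hlt | hlt
  · have h1 := h.1 hlt
    have h2 := h'.1 hlt
    rw [h1] at h2
    exact ⟨(Prod.mk.inj h2).1, (Prod.mk.inj h2).2⟩
  · have h1 := h.2 hlt
    have h2 := h'.2 hlt
    rw [h1] at h2
    exact ⟨(Prod.mk.inj h2).2, (Prod.mk.inj h2).1⟩

theorem kempe_of_missing {k : ℕ} (G : SimpleGraph (Fin k × Bool))
    (hm : ∀ i j : Fin k, i ≠ j → ∀ x y x' y' : Bool, ¬ G.Adj (i, x) (j, y) →
      ¬ G.Adj (i, x') (j, y') → x = x' ∧ y = y') (i j : Fin k) (hij : i ≠ j) :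
    (G.induce ({v | v.1 = i ∨ v.1 = j} : Set (Fin k × Bool))).Connected := by
  classical
  -- adjacency inside the induced graph
  have key : ∀ a b : Fin k, (a = i ∨ a = j) → (b = i ∨ b = j) → a ≠ b → ∀ (x y : Bool)
      (hx : (a, x) ∈ ({v | v.1 = i ∨ v.1 = j} : Set (Fin k × Bool)))
      (hy : (b, y) ∈ ({v | v.1 = i ∨ v.1 = j} : Set (Fin k × Bool))),
      (G.induce ({v | v.1 = i ∨ v.1 = j} : Set (Fin k × Bool))).Reachable ⟨(a, x), hx⟩ ⟨(b, y), hy⟩ := by
    intro a b ha hb hab x y hx hy
    by_cases hadj : G.Adj (a, x) (b, y)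
    · exact SimpleGraph.Adj.reachable hadj
    · have h1 : G.Adj (a, x) (b, !y) := by
        by_contra hc
        have := (hm a b hab x y x (!y) hadj hc).2
        cases y <;> simp at this
      have h2 : G.Adj (a, !x) (b, !y) := by
        by_contra hc
        have := (hm a b hab x y (!x) (!y) hadj hc).1
        cases x <;> simp at this
      have h3 : G.Adj (a, !x) (b, y) := by
        by_contra hc
        have := (hm a b hab x y (!x) y hadj hc).1
        cases x <;> simp at this
      have m1 : (b, !y) ∈ ({v | v.1 = i ∨ v.1 = j} : Set (Fin k × Bool)) := hb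
      have m2 : (a, !x) ∈ ({v | v.1 = i ∨ v.1 = j} : Set (Fin k × Bool)) := ha
      have r1 : (G.induce ({v | v.1 = i ∨ v.1 = j} : Set (Fin k × Bool))).Adj
          ⟨(a, x), hx⟩ ⟨(b, !y), m1⟩ := h1
      have r2 : (G.induce ({v | v.1 = i ∨ v.1 = j} : Set (Fin k × Bool))).Adj
          ⟨(b, !y), m1⟩ ⟨(a, !x), m2⟩ := h2.symm
      have r3 : (G.induce ({v | v.1 = i ∨ v.1 = j} : Set (Fin k × Bool))).Adj
          ⟨(a, !x), m2⟩ ⟨(b, y), hy⟩ := h3
      exact (r1.reachable.trans r2.reachable).trans r3.reachable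
  haveI : Nonempty ↑({v | v.1 = i ∨ v.1 = j} : Set (Fin k × Bool)) := ⟨⟨(i, true), Or.inl rfl⟩⟩
  refine ⟨?_⟩
  rintro ⟨⟨a, x⟩, ha⟩ ⟨⟨b, y⟩, hb⟩
  by_cases hab : a = b
  · subst hab
    have ha' : a = i ∨ a = j := ha
    obtain ⟨c, hc, hac⟩ : ∃ c : Fin k, (c = i ∨ c = j) ∧ a ≠ c := by
      rcases ha' with h | h
      · exact ⟨j, Or.inr rfl, by rw [h]; exact hij⟩
      · exact ⟨i, Or.inl rfl, by rw [h]; exact hij.symm⟩
    have m : (c, true) ∈ ({v | v.1 = i ∨ v.1 = j} : Set (Fin k × Bool)) := hc
    exact (key a c ha' hc hac x true ha m).trans (key c a hc ha' hac.symm true y m hb)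
  · exact key a b ha hb hab x y ha hb

/-- The classes met by a pair of vertices. -/
def supp {k : ℕ} (P : (Fin k × Bool) × (Fin k × Bool)) : Finset (Fin k) := {P.1.1, P.2.1}

/-- An admissible tuple of pairs. -/
def Adm {k q : ℕ} (X : Fin q → (Fin k × Bool) × (Fin k × Bool)) : Prop :=
  (∀ a, (X a).1 = (X a).2 ∨ (X a).1.1 ≠ (X a).2.1) ∧ ∀ a b, a ≠ b → Disjoint (supp (X a)) (supp (X b))

/-- All pairs of the tuple are joined by an edge. -/
def AllAdj {k q : ℕ} (G : SimpleGraph (Fin k × Bool))
    (X : Fin q → (Fin k × Bool) × (Fin k × Bool)) : Prop :=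
  ∀ a b, a < b → ∃ u v, (u = (X a).1 ∨ u = (X a).2) ∧ (v = (X b).1 ∨ v = (X b).2) ∧ G.Adj u v

/-- The constraint sets. -/
def cs {k q : ℕ} (X : Fin q → (Fin k × Bool) × (Fin k × Bool)) (l : Σ _ : Fin q, Fin q) :
    Finset (Fin k × Fin k) :=
  Finset.univ.filter (fun e => e.1 < e.2 ∧ ((e.1 ∈ supp (X l.1) ∧ e.2 ∈ supp (X l.2)) ∨
    (e.1 ∈ supp (X l.2) ∧ e.2 ∈ supp (X l.1))))

theorem card_cs {k q : ℕ} (X : Fin q → (Fin k × Bool) × (Fin k × Bool)) (l : Σ _ : Fin q, Fin q) :
    (cs X l).card ≤ 4 := by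
  classical
  have h1 : cs X l ⊆ ((supp (X l.1)) ×ˢ (supp (X l.2))).image
      (fun e => (min e.1 e.2, max e.1 e.2)) := by
    intro e he
    simp only [cs, Finset.mem_filter, Finset.mem_univ, true_and] at he
    rw [Finset.mem_image]
    rcases he.2 with h | h
    · refine ⟨(e.1, e.2), by simp [h.1, h.2], ?_⟩
      simp [min_eq_left he.1.le, max_eq_right he.1.le]
    · refine ⟨(e.2, e.1), by simp [h.1, h.2], ?_⟩
      simp [min_eq_right he.1.le, max_eq_left he.1.le]
  have h2 : ∀ P : (Fin k × Bool) × (Fin k × Bool), (supp P).card ≤ 2 := by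
    intro P
    exact Finset.card_le_two
  calc (cs X l).card ≤ _ := Finset.card_le_card h1
    _ ≤ ((supp (X l.1)) ×ˢ (supp (X l.2))).card := Finset.card_image_le
    _ = (supp (X l.1)).card * (supp (X l.2)).card := Finset.card_product _ _
    _ ≤ 2 * 2 := Nat.mul_le_mul (h2 _) (h2 _)
    _ = 4 := by norm_num

theorem disj_cs {k q : ℕ} (X : Fin q → (Fin k × Bool) × (Fin k × Bool)) (hX : Adm X)
    (l l' : Σ _ : Fin q, Fin q) (hl : l.2 < l.1) (hl' : l'.2 < l'.1) (hne : l ≠ l') :
    Disjoint (cs X l) (cs X l') := by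
  classical
  rw [Finset.disjoint_left]
  intro e he he'
  simp only [cs, Finset.mem_filter, Finset.mem_univ, true_and] at he he'
  have hu : ∀ (x : Fin k) (a b : Fin q), x ∈ supp (X a) → x ∈ supp (X b) → a = b := by
    intro x a b ha hb
    by_contra hab
    exact Finset.disjoint_left.mp (hX.2 a b hab) ha hb
  obtain ⟨b, a⟩ := l
  obtain ⟨d, c⟩ := l'
  simp only at he he' hl hl'
  rcases he.2 with h | h <;> rcases he'.2 with h' | h'
  · have e1 := hu _ _ _ h.1 h'.1
    have e2 := hu _ _ _ h.2 h'.2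
    subst e1; subst e2; exact hne rfl
  · have e1 := hu _ _ _ h.1 h'.1
    have e2 := hu _ _ _ h.2 h'.2
    subst e1; subst e2; exact absurd hl (not_lt.mpr hl'.le)
  · have e1 := hu _ _ _ h.1 h'.1
    have e2 := hu _ _ _ h.2 h'.2
    subst e1; subst e2; exact absurd hl (not_lt.mpr hl'.le)
  · have e1 := hu _ _ _ h.1 h'.1
    have e2 := hu _ _ _ h.2 h'.2
    subst e1; subst e2; exact hne rfl

/-- The constraint index set. -/
def ci (q : ℕ) : Finset (Σ _ : Fin q, Fin q) := Finset.univ.sigma (fun b => Finset.Iio b)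

theorem card_ci (q : ℕ) : 2 * (ci q).card = q * (q - 1) := by
  rw [ci, Finset.card_sigma]
  simp only [Fin.card_Iio]
  rw [Fin.sum_univ_eq_sum_range (fun i => i) q, mul_comm, Finset.sum_range_id_mul_two]

theorem exists_good (k q : ℕ) (hlt : (4 * k ^ 2) ^ q * 255 ^ (ci q).card < 256 ^ (ci q).card) :
    ∃ M : Fin k × Fin k → Bool × Bool, ∀ X : Fin q → (Fin k × Bool) × (Fin k × Bool),
      Adm X → ¬ AllAdj (gr k M) X := by
  classical
  by_contra hcon
  push Not at hcon
  -- the pattern of a tuple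
  let β : (Fin q → (Fin k × Bool) × (Fin k × Bool)) → Fin k → Bool := fun X i =>
    decide (∃ a, (X a).1 = (i, true) ∨ (X a).2 = (i, true))
  let p : (Fin q → (Fin k × Bool) × (Fin k × Bool)) → Fin k × Fin k → Bool × Bool := fun X e =>
    (β X e.1, β X e.2)
  have hβ : ∀ X, Adm X → ∀ a (u : Fin k × Bool), (u = (X a).1 ∨ u = (X a).2) → β X u.1 = u.2 := by
    intro X hX a u hu
    rcases hb : u.2 with _ | _
    · simp only [β, decide_eq_false_iff_not]
      rintro ⟨c, hc⟩
      have hca : a = c := by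
        by_contra hne
        have hd := Finset.disjoint_left.mp (hX.2 a c hne)
        have m1 : u.1 ∈ supp (X a) := by
          rcases hu with h | h <;> simp [supp, h]
        have m2 : u.1 ∈ supp (X c) := by
          rcases hc with h | h <;> simp [supp, h]
        exact hd m1 m2
      subst hca
      have hne : ∀ w : Fin k × Bool, w = (u.1, true) → w ≠ u := by
        rintro w hw rfl
        rw [hw] at hb
        simp at hb
      rcases hX.1 a with h | h
      · rcases hu with h1 | h1 <;> rcases hc with h2 | h2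
        · exact hne _ h2 h1.symm
        · exact hne _ h2 (h ▸ h1.symm)
        · exact hne _ h2 (h.trans h1.symm)
        · exact hne _ h2 h1.symm
      · rcases hu with h1 | h1 <;> rcases hc with h2 | h2
        · exact hne _ h2 h1.symm
        · apply h; rw [← h1, h2]
        · apply h; rw [← h1, h2]
        · exact hne _ h2 h1.symm
    · simp only [β, decide_eq_true_eq]
      refine ⟨a, ?_⟩
      have hu' : u = (u.1, true) := Prod.ext rfl hb
      rcases hu with h | h
      · left; rw [← h]; exact hu'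
      · right; rw [← h]; exact hu'
  -- every M is bad for some admissible tuple
  have hcover : (Finset.univ : Finset (Fin k × Fin k → Bool × Bool)) ⊆
      (Finset.univ.filter (fun X => Adm X)).biUnion (fun X => good (cs X) (p X) (ci q)) := by
    intro M _
    obtain ⟨X, hX, hM⟩ := hcon M
    rw [Finset.mem_biUnion]
    refine ⟨X, by simp [hX], ?_⟩
    rw [mem_good]
    rintro ⟨b, a⟩ hl
    have hab : a < b := by
      simpa [ci] using hl
    obtain ⟨u, v, hu, hv, hadj⟩ := hM a b hab
    have hu1 : u.1 ∈ supp (X a) := by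
      rcases hu with h | h <;> simp [supp, h]
    have hv1 : v.1 ∈ supp (X b) := by
      rcases hv with h | h <;> simp [supp, h]
    have eu := hβ X hX a u hu
    have ev := hβ X hX b v hv
    rcases hadj with h | h
    · refine ⟨(u.1, v.1), ?_, ?_⟩
      · simp only [cs, Finset.mem_filter, Finset.mem_univ, true_and]
        exact ⟨h.1, Or.inr ⟨hu1, hv1⟩⟩
      · simp only [p]
        rw [eu, ev]
        exact h.2
    · refine ⟨(v.1, u.1), ?_, ?_⟩
      · simp only [cs, Finset.mem_filter, Finset.mem_univ, true_and]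
        exact ⟨h.1, Or.inl ⟨hv1, hu1⟩⟩
      · simp only [p]
        rw [eu, ev]
        exact h.2
  have hN : (Finset.univ : Finset (Fin k × Fin k → Bool × Bool)).card = 4 ^ Fintype.card (Fin k × Fin k) := by
    simp [Finset.card_univ]
  have hW : (Finset.univ : Finset (Fin q → (Fin k × Bool) × (Fin k × Bool))).card = (4 * k ^ 2) ^ q := by
    simp only [Finset.card_univ, Fintype.card_fun, Fintype.card_prod, Fintype.card_fin, Fintype.card_bool]
    congr 1
    ring
  have hbound : 256 ^ (ci q).card * 4 ^ Fintype.card (Fin k × Fin k) ≤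
      (4 * k ^ 2) ^ q * (255 ^ (ci q).card * 4 ^ Fintype.card (Fin k × Fin k)) := by
    calc 256 ^ (ci q).card * 4 ^ Fintype.card (Fin k × Fin k)
        = 256 ^ (ci q).card * (Finset.univ : Finset (Fin k × Fin k → Bool × Bool)).card := by rw [hN]
      _ ≤ 256 ^ (ci q).card * ((Finset.univ.filter (fun X => Adm X)).biUnion
            (fun X => good (cs X) (p X) (ci q))).card :=
          Nat.mul_le_mul_left _ (Finset.card_le_card hcover)
      _ ≤ 256 ^ (ci q).card * ∑ X ∈ Finset.univ.filter
            (fun X : Fin q → (Fin k × Bool) × (Fin k × Bool) => Adm X),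
            (good (cs X) (p X) (ci q)).card := Nat.mul_le_mul_left _ Finset.card_biUnion_le
      _ = ∑ X ∈ Finset.univ.filter
            (fun X : Fin q → (Fin k × Bool) × (Fin k × Bool) => Adm X),
            256 ^ (ci q).card * (good (cs X) (p X) (ci q)).card := by rw [Finset.mul_sum]
      _ ≤ ∑ X ∈ Finset.univ.filter
            (fun X : Fin q → (Fin k × Bool) × (Fin k × Bool) => Adm X),
            255 ^ (ci q).card * 4 ^ Fintype.card (Fin k × Fin k) := by
          apply Finset.sum_le_sum
          intro X hX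
          have hX' : Adm X := by simpa using hX
          apply count
          · intro l _; exact card_cs X l
          · rintro ⟨b, a⟩ hl ⟨d, c⟩ hl' hne
            exact disj_cs X hX' _ _ (by simpa [ci] using hl) (by simpa [ci] using hl') hne
      _ = (Finset.univ.filter
            (fun X : Fin q → (Fin k × Bool) × (Fin k × Bool) => Adm X)).card *
            (255 ^ (ci q).card * 4 ^ Fintype.card (Fin k × Fin k)) := by
          rw [Finset.sum_const, smul_eq_mul]
      _ ≤ (Finset.univ : Finset (Fin q → (Fin k × Bool) × (Fin k × Bool))).card *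
            (255 ^ (ci q).card * 4 ^ Fintype.card (Fin k × Fin k)) :=
          Nat.mul_le_mul_right _ (Finset.card_le_card (Finset.filter_subset _ _))
      _ = (4 * k ^ 2) ^ q * (255 ^ (ci q).card * 4 ^ Fintype.card (Fin k × Fin k)) := by rw [hW]
  have hpos : 0 < 4 ^ Fintype.card (Fin k × Fin k) := by positivity
  have : (4 * k ^ 2) ^ q * 255 ^ (ci q).card * 4 ^ Fintype.card (Fin k × Fin k) <
      256 ^ (ci q).card * 4 ^ Fintype.card (Fin k × Fin k) := Nat.mul_lt_mul_of_pos_right hlt hpos
  rw [← mul_assoc] at hbound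
  omega

end Pool.Agent.Helper479Half
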