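import Mathlib

set_option autoImplicit false

namespace Pool.Agent.Helper479Half

/-- In a graph colored by `c` in which any two classes induce a connected subgraph,
a vertex has a neighbor in every other class. -/
theorem exists_nbr {V : Type} {k : ℕ} (G : SimpleGraph V) (c : V → Fin k)
    (hs : Function.Surjective c) (hp : ∀ u v, G.Adj u v → c u ≠ c v)
    (hK : ∀ i j : Fin k, i ≠ j → (G.induce ({v | c v = i ∨ c v = j} : Set V)).Connected)
    (v : V) (i : Fin k) (hi : c v ≠ i) : ∃ w, c w = i ∧ G.Adj v w := by
  obtain ⟨w0, hw0⟩ := hs i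
  have hcon := hK (c v) i hi
  obtain ⟨p⟩ := hcon.preconnected ⟨v, Or.inl rfl⟩ ⟨w0, Or.inr hw0⟩
  obtain ⟨d, -, hd1, hd2⟩ := p.exists_boundary_dart {x | x.1 = v} rfl (by
    intro h
    have h' : w0 = v := h
    exact hi (by rw [← h', hw0]))
  have hadj : G.Adj d.fst.1 d.snd.1 := d.adj
  have hd1' : d.fst.1 = v := hd1
  rw [hd1'] at hadj
  refine ⟨d.snd.1, ?_, hadj⟩
  rcases d.snd.2 with h | h
  · exact absurd h.symm (hp _ _ hadj)
  · exact h

theorem lower {V : Type} {k : ℕ} (G : SimpleGraph V) (c : V → Fin k)
    (hs : Function.Surjective c) (hp : ∀ u v, G.Adj u v → c u ≠ c v)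
    (hK : ∀ i j : Fin k, i ≠ j → (G.induce ({v | c v = i ∨ c v = j} : Set V)).Connected)
    (t b : Fin k → V) (ht : ∀ i, c (t i) = i) (hb : ∀ i, c (b i) = i) (htb : ∀ i, t i ≠ b i)
    (hcl : ∀ v, v = t (c v) ∨ v = b (c v)) (S : Finset (Fin k)) :
    ∃ (s : ℕ) (B : Fin s → Set V), (∀ a, (G.induce (B a)).Connected) ∧
      (∀ a a', a ≠ a' → Disjoint (B a) (B a')) ∧
      (∀ a a', a ≠ a' → ∃ u ∈ B a, ∃ v ∈ B a', G.Adj u v) ∧
      (∀ a, ∃! i, t i ∈ B a) ∧ (∀ a, ∀ v ∈ B a, c v ∈ S) ∧ S.card ≤ 2 * s := by
  classical
  induction S using Finset.strongInduction with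
  | H S ih =>
  by_cases hgood : ∃ i ∈ S, ∃ x ∈ S, i ≠ x ∧ G.Adj (b x) (t i) ∧ G.Adj (b x) (b i)
  · obtain ⟨i, hi, x, hx, hix, h1, h2⟩ := hgood
    have hsub : (S.erase i).erase x ⊂ S := by
      refine Finset.ssubset_of_subset_of_ssubset (Finset.erase_subset _ _) (Finset.erase_ssubset hi)
    obtain ⟨s, B, hB1, hB2, hB3, hB4, hB5, hB6⟩ := ih _ hsub
    let U : Set V := {b x, t i, b i}
    have hUc : ∀ v ∈ U, c v = i ∨ c v = x := by
      rintro v (rfl | rfl | rfl)
      · right; exact hb x
      · left; exact ht i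
      · left; exact hb i
    have hBU : ∀ a, Disjoint (B a) U := by
      intro a
      rw [Set.disjoint_left]
      intro v hv hvU
      have h3 := hB5 a v hv
      rw [Finset.mem_erase, Finset.mem_erase] at h3
      rcases hUc v hvU with h | h
      · exact h3.2.1 h
      · exact h3.1 h
    have hUB : ∀ a, ∃ u ∈ U, ∃ v ∈ B a, G.Adj u v := by
      intro a
      obtain ⟨⟨v, hv⟩⟩ := (hB1 a).nonempty
      have h3 := hB5 a v hv
      rw [Finset.mem_erase, Finset.mem_erase] at h3
      obtain ⟨w, hw, hvw⟩ := exists_nbr G c hs hp hK v i h3.2.1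
      refine ⟨w, ?_, v, hv, hvw.symm⟩
      rcases hcl w with h | h
      · rw [hw] at h; rw [h]; right; left; rfl
      · rw [hw] at h; rw [h]; right; right; rfl
    refine ⟨s + 1, Fin.cons U B, ?_, ?_, ?_, ?_, ?_, ?_⟩
    · intro a
      refine Fin.cases ?_ (fun a => ?_) a
      · show (G.induce U).Connected
        have m0 : b x ∈ U := Or.inl rfl
        have hreach : ∀ v (hv : v ∈ U), (G.induce U).Reachable ⟨b x, m0⟩ ⟨v, hv⟩ := by
          rintro v (rfl | rfl | rfl)
          · exact SimpleGraph.Reachable.refl _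
          · exact SimpleGraph.Adj.reachable h1
          · exact SimpleGraph.Adj.reachable h2
        have : Nonempty U := ⟨⟨b x, m0⟩⟩
        refine ⟨?_⟩
        rintro ⟨u, hu⟩ ⟨v, hv⟩
        exact (hreach u hu).symm.trans (hreach v hv)
      · exact hB1 a
    · intro a a'
      refine Fin.cases ?_ (fun a => ?_) a <;> refine Fin.cases ?_ (fun a' => ?_) a'
      · intro h; exact absurd rfl h
      · intro _; simpa using (hBU a').symm
      · intro _; simpa using hBU a
      · intro h; simpa using hB2 a a' (fun h' => h (by rw [h']))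
    · intro a a'
      refine Fin.cases ?_ (fun a => ?_) a <;> refine Fin.cases ?_ (fun a' => ?_) a'
      · intro h; exact absurd rfl h
      · intro _; simpa using hUB a'
      · intro _
        obtain ⟨u, hu, v, hv, huv⟩ := hUB a
        exact ⟨v, by simpa using hv, u, by simpa using hu, huv.symm⟩
      · intro h; simpa using hB3 a a' (fun h' => h (by rw [h']))
    · intro a
      refine Fin.cases ?_ (fun a => ?_) a
      · show ∃! j, t j ∈ U
        refine ⟨i, Or.inr (Or.inl rfl), ?_⟩
        rintro j (h | h | h)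
        · exfalso
          have h3 : j = x := by rw [← ht j, h, hb x]
          subst h3
          exact htb j h
        · rw [← ht j, h, ht i]
        · rw [← ht j, h, hb i]
      · simpa using hB4 a
    · intro a
      refine Fin.cases ?_ (fun a => ?_) a
      · intro v hv
        rcases hUc v (by simpa using hv) with h | h
        · rw [h]; exact hi
        · rw [h]; exact hx
      · intro v hv
        have := hB5 a v (by simpa using hv)
        exact Finset.mem_of_mem_erase (Finset.mem_of_mem_erase this)
    · have h3 : ((S.erase i).erase x).card = S.card - 1 - 1 := by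
        rw [Finset.card_erase_of_mem (Finset.mem_erase.mpr ⟨hix.symm, hx⟩), Finset.card_erase_of_mem hi]
      omega
  · push Not at hgood
    -- the transversal vertices of S form a clique
    have hclique : ∀ i ∈ S, ∀ x ∈ S, i ≠ x → G.Adj (t i) (t x) := by
      intro i hi x hx hix
      by_contra hna
      obtain ⟨w, hw, hadj⟩ := exists_nbr G c hs hp hK (t i) x (by rw [ht i]; exact hix)
      have hwb : w = b x := by
        rcases hcl w with h | h
        · rw [hw] at h; rw [h] at hadj; exact absurd hadj hna
        · rw [hw] at h; exact h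
      subst hwb
      -- walk from {t x, b i} to {t i, b x}
      have hcon := hK i x hix
      obtain ⟨p⟩ := hcon.preconnected ⟨t x, Or.inr (ht x)⟩ ⟨t i, Or.inl (ht i)⟩
      obtain ⟨d, -, hd1, hd2⟩ := p.exists_boundary_dart {y | y.1 = t x ∨ y.1 = b i} (Or.inl rfl) (by
        rintro (h | h)
        · have h' : t i = t x := h
          exact hix (by rw [← ht i, h', ht x])
        · exact htb i h)
      have hda : G.Adj d.fst.1 d.snd.1 := d.adj
      have hd2' : ¬ (d.snd.1 = t x ∨ d.snd.1 = b i) := hd2
      have hsnd : d.snd.1 = t i ∨ d.snd.1 = b x := by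
        have h3 := hcl d.snd.1
        rcases d.snd.2 with h | h
        · have h' : c d.snd.1 = i := h
          rw [h'] at h3
          rcases h3 with h3 | h3
          · exact Or.inl h3
          · exact absurd (Or.inr h3) hd2'
        · have h' : c d.snd.1 = x := h
          rw [h'] at h3
          rcases h3 with h3 | h3
          · exact absurd (Or.inl h3) hd2'
          · exact Or.inr h3
      have hfst : d.fst.1 = t x ∨ d.fst.1 = b i := hd1
      rcases hfst with hf | hf <;> rcases hsnd with hg | hg <;> rw [hf, hg] at hda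
      · exact hna hda.symm
      · exact hp _ _ hda (by rw [ht x, hb x])
      · exact hp _ _ hda (by rw [ht i, hb i])
      · exact hgood i hi x hx hix hadj.symm hda.symm
    let e : Fin S.card ≃ S := (Finset.equivFin S).symm
    refine ⟨S.card, fun a => {t (e a).1}, ?_, ?_, ?_, ?_, ?_, by omega⟩
    · intro a
      have : Nonempty ({t (e a).1} : Set V) := ⟨⟨_, rfl⟩⟩
      refine ⟨?_⟩
      rintro ⟨u, rfl⟩ ⟨v, rfl⟩
      exact SimpleGraph.Reachable.refl _
    · intro a a' h
      rw [Set.disjoint_singleton]
      intro h'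
      apply h
      apply e.injective
      apply Subtype.ext
      rw [← ht (e a).1, h', ht]
    · intro a a' h
      refine ⟨_, rfl, _, rfl, hclique _ (e a).2 _ (e a').2 ?_⟩
      intro h'
      exact h (e.injective (Subtype.ext h'))
    · intro a
      refine ⟨(e a).1, rfl, ?_⟩
      intro j hj
      have hj' : t j = t (e a).1 := hj
      rw [← ht j, hj', ht]
    · rintro a v rfl
      rw [ht]
      exact (e a).2

end Pool.Agent.Helper479Half
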