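import Mathlib
import Pool.Agent.Helper479_half.Graph

set_option autoImplicit false

namespace Pool.Agent.Helper479Half

open Finset

theorem numeric (k q : ℕ) (hk : 1 ≤ k) (hq : 1024 * Real.log (2 * k) < (q : ℝ) - 1) (hq1 : 1 ≤ q) :
    (4 * k ^ 2) ^ q * 255 ^ (ci q).card < 256 ^ (ci q).card := by
  have hkR : (1 : ℝ) ≤ k := by exact_mod_cast hk
  have hr : 2 * ((ci q).card : ℝ) = q * ((q : ℝ) - 1) := by
    have h := card_ci q
    have h' : ((2 * (ci q).card : ℕ) : ℝ) = ((q * (q - 1) : ℕ) : ℝ) := by rw [h]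
    push_cast [Nat.cast_sub hq1] at h'
    exact h'
  set r := (ci q).card with hrdef
  have hlog : (1 : ℝ) / 256 ≤ Real.log 256 - Real.log 255 := by
    have h1 : Real.log 256 - Real.log 255 = - Real.log (255 / 256) := by
      rw [Real.log_div (by norm_num) (by norm_num)]
      ring
    rw [h1]
    have h2 : Real.log (255 / 256 : ℝ) ≤ 255 / 256 - 1 := Real.log_le_sub_one_of_pos (by norm_num)
    linarith
  have hlogk : Real.log (4 * (k : ℝ) ^ 2) = 2 * Real.log (2 * k) := by
    have : (4 * (k : ℝ) ^ 2) = (2 * k) ^ 2 := by ring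
    rw [this, Real.log_pow]
    norm_num
  have hqpos : (0 : ℝ) < q := by exact_mod_cast hq1
  have key : (q : ℝ) * Real.log (4 * (k : ℝ) ^ 2) + r * Real.log 255 < r * Real.log 256 := by
    have h3 : (r : ℝ) * (1 / 256) ≤ r * (Real.log 256 - Real.log 255) :=
      mul_le_mul_of_nonneg_left hlog (Nat.cast_nonneg _)
    have h4 : (q : ℝ) * (1024 * Real.log (2 * k)) < q * ((q : ℝ) - 1) :=
      mul_lt_mul_of_pos_left hq hqpos
    rw [hlogk]
    nlinarith
  have h1 : (0 : ℝ) < (4 * (k : ℝ) ^ 2) ^ q * 255 ^ r := by positivity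
  have h2 : (4 * (k : ℝ) ^ 2) ^ q * 255 ^ r < (256 : ℝ) ^ r := by
    rw [← Real.log_lt_log_iff h1 (by positivity)]
    rw [Real.log_mul (by positivity) (by positivity), Real.log_pow, Real.log_pow, Real.log_pow]
    exact key
  exact_mod_cast h2

/-- Data of a clique minor in a graph on `Fin k × Bool`. -/
structure CM {k : ℕ} (G : SimpleGraph (Fin k × Bool)) (s : ℕ) (B : Fin s → Finset (Fin k × Bool)) :
    Prop where
  ne : ∀ a, (B a).Nonempty
  small : ∀ a, (B a).card ≤ 2 → ∃ u v, B a = {u, v} ∧ (u = v ∨ u.1 ≠ v.1)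
  disj : ∀ a b, a ≠ b → Disjoint (B a) (B b)
  adj : ∀ a b, a ≠ b → ∃ u ∈ B a, ∃ v ∈ B b, G.Adj u v

theorem few_small {k q s : ℕ} (G : SimpleGraph (Fin k × Bool))
    (hG : ∀ X : Fin q → (Fin k × Bool) × (Fin k × Bool), Adm X → ¬ AllAdj G X)
    (B : Fin s → Finset (Fin k × Bool)) (hB : CM G s B) (hq : 1 ≤ q) :
    (Finset.univ.filter (fun a => (B a).card ≤ 2)).card ≤ 4 * (q - 1) := by
  classical
  by_contra hcon
  push Not at hcon
  set Sm := Finset.univ.filter (fun a => (B a).card ≤ 2) with hSm
  -- classes met by a member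
  let cl : Fin s → Finset (Fin k) := fun a => (B a).image Prod.fst
  have hcl2 : ∀ a ∈ Sm, (cl a).card ≤ 2 := by
    intro a ha
    have : (B a).card ≤ 2 := by simpa [hSm] using ha
    exact le_trans Finset.card_image_le this
  have hstep : ∀ r ≤ q, ∃ A : Finset (Fin s), A ⊆ Sm ∧ A.card = r ∧
      ∀ a ∈ A, ∀ b ∈ A, a ≠ b → Disjoint (cl a) (cl b) := by
    intro r
    induction r with
    | zero => intro _; exact ⟨∅, by simp, by simp, by simp⟩
    | succ r ih =>
      intro hr
      obtain ⟨A, hA1, hA2, hA3⟩ := ih (by omega)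
      -- vertices of covered classes
      let U : Finset (Fin k × Bool) := (A.biUnion cl) ×ˢ (Finset.univ : Finset Bool)
      have hU : U.card ≤ 4 * r := by
        have h1 : (A.biUnion cl).card ≤ A.card * 2 := by
          apply Finset.card_biUnion_le_card_mul
          intro a ha
          exact hcl2 a (hA1 ha)
        have h2 : U.card = (A.biUnion cl).card * 2 := by
          simp [U, Finset.card_product]
        omega
      -- bad members
      have hbad : (Sm.filter (fun a => ¬ Disjoint (B a) U)).card ≤ U.card := by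
        have hch : ∀ a, ∃ v, a ∈ Sm.filter (fun a => ¬ Disjoint (B a) U) → v ∈ B a ∧ v ∈ U := by
          intro a
          by_cases ha : a ∈ Sm.filter (fun a => ¬ Disjoint (B a) U)
          · have := (Finset.mem_filter.mp ha).2
            rw [Finset.not_disjoint_iff] at this
            obtain ⟨v, hv⟩ := this
            exact ⟨v, fun _ => hv⟩
          · obtain ⟨v, -⟩ := hB.ne a
            exact ⟨v, fun h => absurd h ha⟩
        choose f hf using hch
        refine Finset.card_le_card_of_injOn f (fun a ha => (hf a ha).2) ?_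
        intro a ha b hb hab
        by_contra hne
        have h1 := (hf a ha).1
        have h2 := (hf b hb).1
        rw [hab] at h1
        exact Finset.disjoint_left.mp (hB.disj a b hne) h1 h2
      have hlt : (Sm.filter (fun a => ¬ Disjoint (B a) U)).card < Sm.card := by
        have : 4 * r ≤ 4 * (q - 1) := by omega
        omega
      obtain ⟨x, hx, hxU⟩ : ∃ x ∈ Sm, x ∉ Sm.filter (fun a => ¬ Disjoint (B a) U) := by
        by_contra hc
        push Not at hc
        have := Finset.card_le_card (show Sm ⊆ Sm.filter (fun a => ¬ Disjoint (B a) U) from hc)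
        omega
      have hxd : Disjoint (B x) U := by
        by_contra h
        exact hxU (Finset.mem_filter.mpr ⟨hx, h⟩)
      have hxcl : ∀ a ∈ A, Disjoint (cl x) (cl a) := by
        intro a ha
        rw [Finset.disjoint_left]
        intro i hi hi'
        obtain ⟨v, hv, rfl⟩ := Finset.mem_image.mp hi
        have : v ∈ U := by
          simp only [U, Finset.mem_product, Finset.mem_univ, and_true, Finset.mem_biUnion]
          exact ⟨a, ha, hi'⟩
        exact Finset.disjoint_left.mp hxd hv this
      have hxA : x ∉ A := by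
        intro h
        have := hxcl x h
        rw [Finset.disjoint_self_iff_empty] at this
        obtain ⟨v, hv⟩ := hB.ne x
        have : v.1 ∈ cl x := Finset.mem_image_of_mem _ hv
        simp_all
      refine ⟨insert x A, ?_, ?_, ?_⟩
      · intro a ha
        rcases Finset.mem_insert.mp ha with rfl | ha
        · exact hx
        · exact hA1 ha
      · rw [Finset.card_insert_of_notMem hxA, hA2]
      · intro a ha b hb hne
        rcases Finset.mem_insert.mp ha with h1 | h1 <;> rcases Finset.mem_insert.mp hb with h2 | h2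
        · exact absurd (h1.trans h2.symm) hne
        · rw [h1]; exact hxcl b h2
        · rw [h2]; exact (hxcl a h1).symm
        · exact hA3 a h1 b h2 hne
  obtain ⟨A, hA1, hA2, hA3⟩ := hstep q le_rfl
  let e : Fin q ≃ A := (Finset.equivFinOfCardEq hA2).symm
  have hsm : ∀ a : Fin q, (B (e a).1).card ≤ 2 := by
    intro a
    have := hA1 (e a).2
    simpa [hSm] using this
  have hch : ∀ a : Fin q, ∃ P : (Fin k × Bool) × (Fin k × Bool), B (e a).1 = {P.1, P.2} ∧
      (P.1 = P.2 ∨ P.1.1 ≠ P.2.1) := by
    intro a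
    obtain ⟨u, v, h1, h2⟩ := hB.small (e a).1 (hsm a)
    exact ⟨(u, v), h1, h2⟩
  choose X hX1 hX2 using hch
  have hsupp : ∀ a, supp (X a) = cl (e a).1 := by
    intro a
    simp only [cl, hX1 a, supp, Finset.image_insert, Finset.image_singleton]
  have hne : ∀ a b : Fin q, a ≠ b → (e a).1 ≠ (e b).1 := by
    intro a b hab h
    exact hab (e.injective (Subtype.ext h))
  apply hG X
  · refine ⟨hX2, ?_⟩
    intro a b hab
    rw [hsupp, hsupp]
    exact hA3 _ (e a).2 _ (e b).2 (hne a b hab)
  · intro a b hab
    obtain ⟨u, hu, v, hv, huv⟩ := hB.adj _ _ (hne a b hab.ne)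
    rw [hX1 a] at hu
    rw [hX1 b] at hv
    refine ⟨u, v, ?_, ?_, huv⟩
    · simpa using hu
    · simpa using hv

theorem few_large {k s : ℕ} (G : SimpleGraph (Fin k × Bool)) (t : Fin k → Fin k × Bool)
    (ht : ∀ i, (t i).1 = i) (B : Fin s → Finset (Fin k × Bool)) (hB : CM G s B)
    (hT : ∀ a, ∃! i, t i ∈ B a) :
    2 * (Finset.univ.filter (fun a => ¬ (B a).card ≤ 2)).card ≤ k := by
  classical
  set La := Finset.univ.filter (fun a => ¬ (B a).card ≤ 2) with hLa
  let N : Finset (Fin k × Bool) := Finset.univ.image (fun i : Fin k => (i, ! (t i).2))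
  have hNcard : N.card ≤ k := by
    calc N.card ≤ (Finset.univ : Finset (Fin k)).card := Finset.card_image_le
      _ = k := by simp
  have hN : ∀ v, v ∉ N → v = t v.1 := by
    intro v hv
    by_contra hne
    apply hv
    simp only [N, Finset.mem_image, Finset.mem_univ, true_and]
    refine ⟨v.1, ?_⟩
    have h1 : v.2 ≠ (t v.1).2 := by
      intro h
      exact hne (Prod.ext (ht v.1).symm h)
    ext
    · rfl
    · rcases hv2 : v.2 with _ | _ <;> rcases ht2 : (t v.1).2 with _ | _ <;> simp_all
  have h2 : ∀ a ∈ La, 2 ≤ (B a ∩ N).card := by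
    intro a ha
    have h3 : ¬ (B a).card ≤ 2 := by simpa [hLa] using ha
    have h4 : (B a \ N).card ≤ 1 := by
      rw [Finset.card_le_one]
      intro u hu v hv
      rw [Finset.mem_sdiff] at hu hv
      obtain ⟨i, -, hi⟩ := hT a
      have e1 := hN u hu.2
      have e2 := hN v hv.2
      have f1 : u.1 = i := hi _ (by show t u.1 ∈ B a; rw [← e1]; exact hu.1)
      have f2 : v.1 = i := hi _ (by show t v.1 ∈ B a; rw [← e2]; exact hv.1)
      rw [e1, e2, f1, f2]
    have h5 := Finset.card_sdiff_add_card_inter (B a) N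
    omega
  have h6 : (La.biUnion (fun a => B a ∩ N)).card = ∑ a ∈ La, (B a ∩ N).card := by
    apply Finset.card_biUnion
    intro a _ b _ hab
    exact Finset.disjoint_of_subset_left Finset.inter_subset_left
      (Finset.disjoint_of_subset_right Finset.inter_subset_left (hB.disj a b hab))
  have h7 : (La.biUnion (fun a => B a ∩ N)).card ≤ N.card := by
    apply Finset.card_le_card
    intro v hv
    obtain ⟨a, _, ha⟩ := Finset.mem_biUnion.mp hv
    exact (Finset.mem_inter.mp ha).2
  have h8 : La.card * 2 ≤ ∑ a ∈ La, (B a ∩ N).card := by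
    have := Finset.card_nsmul_le_sum La (fun a => (B a ∩ N).card) 2 h2
    simpa [smul_eq_mul] using this
  omega

end Pool.Agent.Helper479Half
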